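import Pool.Agent.Lib.lead.CXBase

namespace Pool.Agent.Results.MP_7af251_lc.Hard

open Pool.Agent.Lib.CX

/-- an entry `(m, w, r, s)`: the pair of man `m` and woman `w` is acceptable, `m` gives `w` rank `r` and `w` gives
`m` rank `s` (smaller is better, equal ranks are ties) -/
abbrev Inst := List (ℕ × ℕ × ℕ × ℕ)

def WF (E : Inst) : Prop := ∀ e ∈ E, ∀ f ∈ E, e.1 = f.1 → e.2.1 = f.2.1 → e = f

def Acc (E : Inst) (m w : ℕ) : Prop := ∃ r s, (m, w, r, s) ∈ E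

/-- man `m` strictly prefers `w` to `w'` -/
def MPref (E : Inst) (m w w' : ℕ) : Prop := ∃ r s r' s', (m, w, r, s) ∈ E ∧ (m, w', r', s') ∈ E ∧ r < r'

/-- woman `w` strictly prefers `m` to `m'` -/
def WPref (E : Inst) (w m m' : ℕ) : Prop := ∃ r s r' s', (m, w, r, s) ∈ E ∧ (m', w, r', s') ∈ E ∧ s < s'

def IsMatching (E : Inst) (M : Set (ℕ × ℕ)) : Prop :=
  (∀ p ∈ M, Acc E p.1 p.2) ∧ (∀ m w w', (m, w) ∈ M → (m, w') ∈ M → w = w') ∧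
    ∀ m m' w, (m, w) ∈ M → (m', w) ∈ M → m = m'

def WeaklyStable (E : Inst) (M : Set (ℕ × ℕ)) : Prop :=
  IsMatching E M ∧ ¬∃ m w, Acc E m w ∧ (m, w) ∉ M ∧ (∀ w', (m, w') ∈ M → MPref E m w w') ∧
    ∀ m', (m', w) ∈ M → WPref E w m m'

def ManOptimal (E : Inst) (M : Set (ℕ × ℕ)) : Prop :=
  WeaklyStable E M ∧ ∀ M', WeaklyStable E M' → ∀ m w', (m, w') ∈ M' → ∃ w, (m, w) ∈ M ∧ ¬MPref E m w' w

abbrev V := ℕ × Cl3 ℕ × ℕ
abbrev K (t : ℕ) : V := (t, ((0, true), (0, true), (0, true)), 0)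
abbrev L (t : ℕ) (x : ℕ) (b : Bool) : V := (t, ((x, b), (x, b), (x, b)), 0)

def rm (a b : V) : ℕ :=
  if a.1 = 4 then (if b.1 = 3 then 0 else b.1 / 2) else if a.1 = 1 then (if b.1 = 0 then 0 else 1)
  else if (a.1 = 2 ∨ a.1 = 5) ∧ b.1 = 0 then 1 else 0
def rw (a b : V) : ℕ :=
  if b.1 = 0 then (if a.1 ≤ 1 then 1 else 0) else if b.1 = 3 then 0
  else if a.1 = 3 ∨ (a.1 = 4 ∧ b.1 = 4) then 0 else if a.1 = 1 ∨ a.1 = 4 then 1 else 2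

def prs (φ : List (Cl3 ℕ)) : List (V × V) :=
  (K 0, K 0) :: (K 1, K 0) :: (φ ×ˢ List.range 3).flatMap fun y =>
    [((2, y.1, 0), K 0), ((2, y.1, 0), (1, y.1, 0)), (K 1, (1, y.1, 0)), ((2, y.1, 0), (2, y)), ((3, y), (1, y.1, 0)),
      ((3, y), (2, y)), (L 4 (litOf y).1 (litOf y).2, (2, y)), (L 5 (litOf y).1 true, K 0),
      (L 5 (litOf y).1 true, L 4 (litOf y).1 true), (K 1, L 4 (litOf y).1 true),
      (L 5 (litOf y).1 true, L 3 (litOf y).1 true), (L 5 (litOf y).1 true, L 3 (litOf y).1 false),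
      (L 4 (litOf y).1 true, L 3 (litOf y).1 true), (L 4 (litOf y).1 false, L 3 (litOf y).1 false),
      (L 4 (litOf y).1 true, L 4 (litOf y).1 true), (L 4 (litOf y).1 false, L 4 (litOf y).1 true)]

def inst (φ : List (Cl3 ℕ)) : Inst := (prs φ).map fun p => (nameOf p.1, nameOf p.2, rm p.1 p.2, rw p.1 p.2)

def Oc (φ : List (Cl3 ℕ)) (x : ℕ) : Prop := ∃ C ∈ φ, ∃ l < 3, (litOf (C, l)).1 = x

inductive Pr (φ : List (Cl3 ℕ)) : V → V → Prop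
  | m0 : Pr φ (K 0) (K 0)
  | x0 : Pr φ (K 1) (K 0)
  | z0 {C} : C ∈ φ → Pr φ (2, C, 0) (K 0)
  | za {C} : C ∈ φ → Pr φ (2, C, 0) (1, C, 0)
  | xa {C} : C ∈ φ → Pr φ (K 1) (1, C, 0)
  | zh {C l} : C ∈ φ → l < 3 → Pr φ (2, C, 0) (2, C, l)
  | ga {C l} : C ∈ φ → l < 3 → Pr φ (3, C, l) (1, C, 0)
  | gh {C l} : C ∈ φ → l < 3 → Pr φ (3, C, l) (2, C, l)
  | vh {C l x b} : C ∈ φ → l < 3 → litOf (C, l) = (x, b) → Pr φ (L 4 x b) (2, C, l)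
  | u0 {x} : Oc φ x → Pr φ (L 5 x true) (K 0)
  | ue {x} : Oc φ x → Pr φ (L 5 x true) (L 4 x true)
  | xe {x} : Oc φ x → Pr φ (K 1) (L 4 x true)
  | uf {x b} : Oc φ x → Pr φ (L 5 x true) (L 3 x b)
  | vf {x b} : Oc φ x → Pr φ (L 4 x b) (L 3 x b)
  | ve {x b} : Oc φ x → Pr φ (L 4 x b) (L 4 x true)

theorem mem_prs {φ a b} : (a, b) ∈ prs φ ↔ Pr φ a b := by
  constructor
  · intro h
    simp only [prs, List.mem_cons, List.mem_flatMap, Prod.mk.injEq, List.not_mem_nil, or_false] at h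
    rcases h with ⟨rfl, rfl⟩ | ⟨rfl, rfl⟩ | ⟨⟨C, l⟩, h1, h⟩
    · exact .m0
    · exact .x0
    obtain ⟨hC, hl⟩ := List.pair_mem_product.1 h1
    rw [List.mem_range] at hl
    have o : Oc φ (litOf (C, l)).1 := ⟨C, hC, l, hl, rfl⟩
    rcases h with h | h | h | h | h | h | h | h | h | h | h | h | h | h | h | h <;> obtain ⟨rfl, rfl⟩ := h <;>
      constructor <;> first | assumption | rfl
  · intro h
    have k : ∀ {C l}, C ∈ φ → l < 3 → (C, l) ∈ φ ×ˢ List.range 3 := fun h1 h2 =>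
      List.pair_mem_product.2 ⟨h1, List.mem_range.2 h2⟩
    simp only [prs, List.mem_cons, List.mem_flatMap]
    cases h with
    | m0 => simp
    | x0 => simp
    | z0 h | za h | xa h => exact .inr (.inr ⟨_, k h (Nat.succ_pos _), by simp⟩)
    | zh h h' | ga h h' | gh h h' => exact .inr (.inr ⟨_, k h h', by simp⟩)
    | vh h h' e => exact .inr (.inr ⟨_, k h h', by simp [e]⟩)
    | u0 h | ue h | xe h => obtain ⟨C, h, l, h', rfl⟩ := h; exact .inr (.inr ⟨_, k h h', by simp⟩)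
    | @uf x b h | @vf x b h | @ve x b h =>
      obtain ⟨C, h, l, h', rfl⟩ := h; cases b <;> exact .inr (.inr ⟨_, k h h', by simp⟩)

theorem mem_inst {φ m w r s} : (m, w, r, s) ∈ inst φ ↔
    ∃ a b, Pr φ a b ∧ m = nameOf a ∧ w = nameOf b ∧ r = rm a b ∧ s = rw a b := by
  simp only [inst, List.mem_map, Prod.mk.injEq]
  constructor
  · rintro ⟨⟨a, b⟩, h, rfl, rfl, rfl, rfl⟩; exact ⟨_, _, mem_prs.1 h, rfl, rfl, rfl, rfl⟩
  · rintro ⟨a, b, h, rfl, rfl, rfl, rfl⟩; exact ⟨(a, b), mem_prs.2 h, rfl, rfl, rfl, rfl⟩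

theorem wf (φ) : WF (inst φ) := by
  rintro ⟨_, _, _, _⟩ h1 ⟨_, _, _, _⟩ h2
  obtain ⟨a, b, -, rfl, rfl, rfl, rfl⟩ := mem_inst.1 h1
  obtain ⟨c, d, -, rfl, rfl, rfl, rfl⟩ := mem_inst.1 h2
  simp only [nameOf_inj]
  rintro rfl rfl; rfl

theorem acc_iff {φ m w} : Acc (inst φ) m w ↔ ∃ a b, Pr φ a b ∧ m = nameOf a ∧ w = nameOf b := by
  simp only [Acc, mem_inst]
  exact ⟨fun ⟨_, _, a, b, h, h1, h2, _⟩ => ⟨a, b, h, h1, h2⟩, fun ⟨a, b, h, h1, h2⟩ => ⟨_, _, a, b, h, h1, h2, rfl, rfl⟩⟩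

theorem mp_iff {φ} {a b c : V} : MPref (inst φ) (nameOf a) (nameOf b) (nameOf c) ↔
    Pr φ a b ∧ Pr φ a c ∧ rm a b < rm a c := by
  simp only [MPref, mem_inst, nameOf_inj]
  exact ⟨by rintro ⟨_, _, _, _, ⟨_, _, h, rfl, rfl, rfl, rfl⟩, ⟨_, _, h', rfl, rfl, rfl, rfl⟩, l⟩; exact ⟨h, h', l⟩,
    fun ⟨h, h', l⟩ => ⟨_, _, _, _, ⟨_, _, h, rfl, rfl, rfl, rfl⟩, ⟨_, _, h', rfl, rfl, rfl, rfl⟩, l⟩⟩

theorem wp_iff {φ} {a b c : V} : WPref (inst φ) (nameOf b) (nameOf a) (nameOf c) ↔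
    Pr φ a b ∧ Pr φ c b ∧ rw a b < rw c b := by
  simp only [WPref, mem_inst, nameOf_inj]
  exact ⟨by rintro ⟨_, _, _, _, ⟨_, _, h, rfl, rfl, rfl, rfl⟩, ⟨_, _, h', rfl, rfl, rfl, rfl⟩, l⟩; exact ⟨h, h', l⟩,
    fun ⟨h, h', l⟩ => ⟨_, _, _, _, ⟨_, _, h, rfl, rfl, rfl, rfl⟩, ⟨_, _, h', rfl, rfl, rfl, rfl⟩, l⟩⟩

structure St (φ : List (Cl3 ℕ)) (μ : V → V → Prop) : Prop where
  pr : ∀ {a b}, μ a b → Pr φ a b
  f1 : ∀ {a b c}, μ a b → μ a c → b = c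
  f2 : ∀ {a b c}, μ a c → μ b c → a = b
  st : ∀ {a b}, Pr φ a b → (∃ c, μ a c ∧ rm a c ≤ rm a b) ∨ ∃ c, μ c b ∧ rw c b ≤ rw a b

theorem St.of {φ M} (h : WeaklyStable (inst φ) M) : St φ fun a b => (nameOf a, nameOf b) ∈ M := by
  have pr : ∀ {a b : V}, (nameOf a, nameOf b) ∈ M → Pr φ a b := fun h' => by
    obtain ⟨_, _, h, e1, e2⟩ := acc_iff.1 (h.1.1 _ h')
    rwa [nameOf_inj.1 e1, nameOf_inj.1 e2]
  refine ⟨pr, fun h1 h2 => nameOf_inj.1 (h.1.2.1 _ _ _ h1 h2), fun h1 h2 => nameOf_inj.1 (h.1.2.2 _ _ _ h1 h2),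
    fun {a b} hp => ?_⟩
  by_contra hc
  push Not at hc
  refine h.2 ⟨_, _, acc_iff.2 ⟨a, b, hp, rfl, rfl⟩, fun h' => (hc.1 _ h').false, fun w h' => ?_, fun m h' => ?_⟩
  · obtain ⟨_, c, -, -, rfl⟩ := acc_iff.1 (h.1.1 _ h')
    exact mp_iff.2 ⟨hp, pr h', hc.1 _ h'⟩
  · obtain ⟨c, _, -, rfl, -⟩ := acc_iff.1 (h.1.1 _ h')
    exact wp_iff.2 ⟨hp, pr h', hc.2 _ h'⟩

def toM (μ : V → V → Prop) : Set (ℕ × ℕ) := {p | ∃ a b, μ a b ∧ p = (nameOf a, nameOf b)}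

theorem mem_toM {μ a b} : (nameOf a, nameOf b) ∈ toM μ ↔ μ a b := by simp [toM, -Prod.exists]

theorem St.to {φ μ} (h : St φ μ) : WeaklyStable (inst φ) (toM μ) := by
  refine ⟨⟨?_, ?_, ?_⟩, ?_⟩
  · rintro _ ⟨a, b, h', rfl⟩; exact acc_iff.2 ⟨a, b, h.pr h', rfl, rfl⟩
  · rintro _ _ _ ⟨a, b, h1, ⟨⟩⟩ ⟨c, d, h2, e⟩
    simp only [Prod.mk.injEq, nameOf_inj] at e
    obtain ⟨rfl, rfl⟩ := e
    rw [h.f1 h1 h2]
  · rintro _ _ _ ⟨a, b, h1, ⟨⟩⟩ ⟨c, d, h2, e⟩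
    simp only [Prod.mk.injEq, nameOf_inj] at e
    obtain ⟨rfl, rfl⟩ := e
    rw [h.f2 h1 h2]
  · rintro ⟨_, _, h1, -, h2, h3⟩
    obtain ⟨a, b, hp, rfl, rfl⟩ := acc_iff.1 h1
    rcases h.st hp with ⟨c, h4, h5⟩ | ⟨c, h4, h5⟩
    · exact (mp_iff.1 (h2 _ (mem_toM.2 h4))).2.2.not_ge h5
    · exact (wp_iff.1 (h3 _ (mem_toM.2 h4))).2.2.not_ge h5

theorem sat_of {φ μ} (h : St φ μ) (h0 : μ (K 0) (K 0)) : Sat3 φ := by
  have hz : ∀ {C}, C ∈ φ → μ (2, C, 0) (1, C, 0) ∨ ∃ l < 3, μ (2, C, 0) (2, C, l) := fun hC => by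
    rcases h.st (.z0 hC) with ⟨c, h1, -⟩ | ⟨c, h1, h2⟩
    · cases h.pr h1 with
      | z0 => cases h.f2 h0 h1
      | za => exact .inl h1
      | zh _ hl => exact .inr ⟨_, hl, h1⟩
    · obtain rfl := h.f2 h0 h1; simp [rw] at h2
  have hg : ∀ {C l a}, C ∈ φ → l < 3 → μ a (2, C, l) → a.1 ≠ 3 → μ (3, C, l) (1, C, 0) := fun hC hl ha hn => by
    rcases h.st (.gh hC hl) with ⟨c, h1, -⟩ | ⟨c, h1, h2⟩
    · cases h.pr h1 with
      | ga => exact h1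
      | gh => cases h.f2 ha h1; exact (hn rfl).elim
    · obtain rfl := h.f2 ha h1
      cases h.pr h1 <;> simp [rw] at h2 hn
  have hv : ∀ {x b C l}, ¬μ (L 4 x b) (2, C, l) := fun h1 => by
    cases h.pr h1 with
    | vh hC hl =>
      have h2 := hg hC hl h1 (by simp)
      rcases hz hC with h3 | ⟨l', hl', h3⟩
      · cases h.f2 h2 h3
      · cases h.f2 h2 (hg hC hl' h3 (by simp))
        cases h.f2 h1 h3
  have hx : ∀ {c}, ¬μ (K 1) c := fun h1 => by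
    cases h.pr h1 with
    | x0 => cases h.f2 h0 h1
    | xa hC =>
      rcases hz hC with h3 | ⟨l', hl', h3⟩
      · cases h.f2 h1 h3
      · cases h.f2 h1 (hg hC hl' h3 (by simp))
    | xe o =>
      rcases h.st (.u0 o) with ⟨c, h2, -⟩ | ⟨c, h2, h3⟩
      · cases h.pr h2 with
        | u0 => cases h.f2 h0 h2
        | ue => cases h.f2 h1 h2
        | @uf _ b =>
          rcases h.st (.ve (b := b) o) with ⟨c, h3, -⟩ | ⟨c, h3, h4⟩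
          · cases h.pr h3 with
            | vh => exact hv h3
            | vf => cases h.f2 h2 h3
            | ve => cases h.f2 h1 h3
          · obtain rfl := h.f2 h1 h3; simp [rw] at h4
      · obtain rfl := h.f2 h0 h2; simp [rw] at h3
  classical
  refine ⟨fun x => decide (μ (L 4 x true) (L 3 x true)), fun C hC => (ok_iff _ _).2 ?_⟩
  obtain ⟨l, hl, h1⟩ : ∃ l < 3, μ (2, C, 0) (2, C, l) := by
    refine (hz hC).resolve_left fun h1 => ?_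
    rcases h.st (.xa hC) with ⟨c, h2, -⟩ | ⟨c, h2, h3⟩
    · exact hx h2
    · obtain rfl := h.f2 h1 h2; simp [rw] at h3
  refine ⟨l, hl, ?_⟩
  rcases e : litOf (C, l) with ⟨x, b⟩
  have h2 : μ (L 4 x b) (L 3 x b) := by
    rcases h.st (.vh hC hl e) with ⟨c, h2, h3⟩ | ⟨c, h2, h3⟩
    · cases h.pr h2 with
      | vh => exact (hv h2).elim
      | vf => exact h2
      | ve => simp [rm] at h3
    · obtain rfl := h.f2 h1 h2; simp [rw] at h3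
  cases b
  · refine decide_eq_false fun h3 => ?_
    rcases h.st (.xe ⟨C, hC, l, hl, by rw [e]⟩) with ⟨c, h4, -⟩ | ⟨c, h4, h5⟩
    · exact hx h4
    · cases h.pr h4 with
      | ue => simp [rw] at h5
      | xe => exact hx h4
      | @ve _ b => cases b; cases h.f1 h2 h4; cases h.f1 h3 h4
  · exact decide_eq_true h2

/-- the matching in which every man but one has a first choice -/
def μ0 (φ : List (Cl3 ℕ)) (a b : V) : Prop :=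
  Pr φ a b ∧ (a.1, b.1) ∈ [(1, 0), (2, 1), (3, 2), (4, 3), (5, 4)]

theorem μ0_top {φ a b} (h : Pr φ a b) (e : a ≠ K 0) : ∃ c, μ0 φ a c ∧ rm a c = 0 := by
  cases h with
  | m0 => exact (e rfl).elim
  | x0 | xa | xe => exact ⟨_, ⟨.x0, by simp⟩, rfl⟩
  | z0 h | za h | zh h => exact ⟨_, ⟨.za h, by simp⟩, rfl⟩
  | ga h h' | gh h h' => exact ⟨_, ⟨.gh h h', by simp⟩, rfl⟩
  | vh h h' e' => exact ⟨_, ⟨.vf ⟨_, h, _, h', by rw [e']⟩, by simp⟩, rfl⟩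
  | vf h | ve h => exact ⟨_, ⟨.vf h, by simp⟩, rfl⟩
  | u0 h | ue h | uf h => exact ⟨_, ⟨.ue h, by simp⟩, rfl⟩

theorem st0 (φ) : St φ (μ0 φ) := by
  refine ⟨fun h => h.1, ?_, ?_, fun {a b} h => ?_⟩
  · rintro a b c ⟨h1, h2⟩ ⟨h3, h4⟩
    cases h1 <;> simp at h2 <;> cases h3 <;> simp at h4 ⊢
  · rintro a b c ⟨h1, h2⟩ ⟨h3, h4⟩
    cases h1 <;> simp at h2 <;> cases h3 <;> simp at h4 ⊢
  · by_cases e : a = K 0
    · subst e; cases h; exact .inr ⟨_, ⟨.x0, by simp⟩, le_rfl⟩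
    · obtain ⟨c, h1, h2⟩ := μ0_top h e
      exact .inl ⟨c, h1, h2 ▸ Nat.zero_le _⟩

def μ1 (φ : List (Cl3 ℕ)) (v : ℕ → Bool) (k : Cl3 ℕ → ℕ) (a b : V) : Prop :=
  Pr φ a b ∧ ((a.1, b.1) = (0, 0) ∨ (a.1, b.1) = (2, 2) ∧ b.2.2 = k b.2.1 ∨ (a.1, b.1) = (3, 1) ∧ a.2.2 = k a.2.1 ∨
    (a.1, b.1) = (3, 2) ∧ a.2.2 ≠ k a.2.1 ∨ (a.1, b.1) = (4, 3) ∧ v a.2.1.1.1 = a.2.1.1.2 ∨
    (a.1, b.1) = (4, 4) ∧ v a.2.1.1.1 ≠ a.2.1.1.2 ∨ (a.1, b.1) = (5, 3) ∧ v b.2.1.1.1 ≠ b.2.1.1.2)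

theorem st1 {φ v k} (h1 : ∀ C ∈ φ, k C < 3) (h2 : ∀ C ∈ φ, v (litOf (C, k C)).1 = (litOf (C, k C)).2) :
    St φ (μ1 φ v k) := by
  refine ⟨fun h => h.1, ?_, ?_, fun {a b} h => ?_⟩
  · rintro a b c ⟨h5, h6⟩ ⟨h3, h4⟩
    clear h1 h2
    cases h5 <;> simp at h6 <;> cases h3 <;> simp at h4 ⊢ <;> grind [cases Bool]
  · rintro a b c ⟨h5, h6⟩ ⟨h3, h4⟩
    clear h1 h2
    cases h5 <;> simp at h6 <;> cases h3 <;> simp at h4 ⊢ <;> grind [cases Bool]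
  · cases h with
    | m0 | x0 => exact .inr ⟨_, ⟨.m0, by simp⟩, le_rfl⟩
    | z0 h | za h | zh h => exact .inl ⟨_, ⟨.zh h (h1 _ h), by simp⟩, by simp [rm]⟩
    | xa h => exact .inr ⟨_, ⟨.ga h (h1 _ h), by simp⟩, by simp [rw]⟩
    | @ga C l h h' | @gh C l h h' =>
      by_cases e : l = k C
      · exact .inl ⟨_, ⟨.ga h h', by simp [e]⟩, by simp [rm]⟩
      · exact .inl ⟨_, ⟨.gh h h', by simp [e]⟩, by simp [rm]⟩
    | @vh C l x b h h' e' =>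
      by_cases e : l = k C
      · have := h2 C h
        rw [← e, e'] at this
        exact .inl ⟨_, ⟨.vf ⟨_, h, _, h', by rw [e']⟩, by simpa using this⟩, by simp [rm]⟩
      · exact .inr ⟨_, ⟨.gh h h', by simp [e]⟩, by simp [rw]⟩
    | @u0 x h | @ue x h | @uf x _ h => exact .inl ⟨_, ⟨.uf (b := !v x) h, by simp⟩, by simp [rm]⟩
    | @xe x h | @ve x _ h => exact .inr ⟨_, ⟨.ve (b := !v x) h, by simp⟩, by simp [rw]⟩
    | @vf x b h =>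
      by_cases e : v x = b
      · exact .inr ⟨_, ⟨.vf h, by simp [e]⟩, le_rfl⟩
      · exact .inr ⟨_, ⟨.uf h, by simp [e]⟩, le_rfl⟩

theorem pt_inst : PT inst := by
  have h1 : PT fun p : V × V => rm p.1 p.2 := by unfold rm; fun_prop
  have h2 : PT fun p : V × V => rw p.1 p.2 := by unfold rw; fun_prop
  have h3 : PT litOf := by unfold litOf; fun_prop
  have h4 : PT prs := by unfold prs; fun_prop
  exact PT.map (F := fun _ (p : V × V) => (nameOf p.1, nameOf p.2, rm p.1 p.2, rw p.1 p.2))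
    (PT.comp (f := fun p : V × V => (nameOf p.1, nameOf p.2, rm p.1 p.2, rw p.1 p.2))
      (PT.pair (by fun_prop) (PT.pair (by fun_prop) (h1.pair h2))) PT.snd') h4

theorem result : NPHard fun I : {E : Inst // WF E} => ¬∃ M, ManOptimal I.1 M := by
  refine NPHard.of_sat3 (fun φ => ⟨inst φ, wf φ⟩) (pt_inst.subtype _) fun φ _ => ⟨?_, fun h => ?_⟩
  · rintro ⟨v, hv⟩ ⟨M, hM, h⟩
    simp only [ok_iff] at hv
    choose! k h1 h2 using hv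
    have s := St.of hM
    obtain ⟨w, a1, -⟩ := h _ (st1 h1 h2).to _ _ (mem_toM.2 ⟨.m0, by simp⟩)
    obtain ⟨w', a2, a3⟩ := h _ (st0 φ).to _ _ (mem_toM.2 ⟨.x0, by simp⟩)
    obtain ⟨_, b, -, -, rfl⟩ := acc_iff.1 (hM.1.1 _ a1)
    obtain ⟨_, c, -, -, rfl⟩ := acc_iff.1 (hM.1.1 _ a2)
    cases s.pr a1
    have p := s.pr a2
    cases s.pr a2 with
    | x0 => cases s.f2 a1 a2
    | xa | xe => exact a3 (mp_iff.2 ⟨.x0, p, by simp [rm]⟩)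
  · by_contra hs
    refine h ⟨_, (st0 φ).to, fun M hM m w hm => ?_⟩
    obtain ⟨a, b, p, rfl, rfl⟩ := acc_iff.1 (hM.1.1 _ hm)
    by_cases e : a = K 0
    · subst e; cases p; exact (hs (sat_of (St.of hM) hm)).elim
    · obtain ⟨c, h1, h2⟩ := μ0_top p e
      exact ⟨_, mem_toM.2 h1, fun h => by simpa [h2] using (mp_iff.1 h).2.2⟩

end Pool.Agent.Results.MP_7af251_lc.Hard
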